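import Mathlib

set_option autoImplicit false

open MeasureTheory Set Complex

namespace Pool.Agent.H596Z.Ortho

noncomputable abbrev mu : Measure ℝ := volume.restrict (Icc (0:ℝ) 1)

/-- the exponential of period `81/100` -/
noncomputable def ex (n : ℤ) (x : ℝ) : ℂ := fourier n (x : AddCircle ((81:ℝ)/100 - 0))

lemma ex_cont (n : ℤ) : Continuous (ex n) :=
  (fourier n).continuous.comp (AddCircle.continuous_mk' _)

lemma ex_norm (n : ℤ) (x : ℝ) : ‖ex n x‖ = 1 := by
  unfold ex
  rw [fourier_apply]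
  exact Circle.norm_coe _

lemma ex_add (m n : ℤ) (x : ℝ) : ex (m + n) x = ex m x * ex n x := fourier_add

lemma ex_neg (n : ℤ) (x : ℝ) : ex (-n) x = (starRingEnd ℂ) (ex n x) := fourier_neg

lemma ex_int (n : ℤ) : ∫ x in (0:ℝ)..(81/100), ex n x = if n = 0 then (81/100 : ℂ) else 0 := by
  split_ifs with h
  · subst h
    simp [ex]
  · have hd : ∀ x ∈ uIcc (0:ℝ) (81/100), HasDerivAt (ex n)
        (2 * Real.pi * I * n / (((81:ℝ)/100 - 0 : ℝ) : ℂ) * ex n x) x := fun x _ =>
      hasDerivAt_fourier _ n x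
    have h1 := intervalIntegral.integral_eq_sub_of_hasDerivAt hd
      ((continuous_const.mul (ex_cont n)).intervalIntegrable _ _)
    rw [intervalIntegral.integral_const_mul] at h1
    have h2 : ex n (81/100) = ex n 0 := by
      unfold ex
      congr 1
      have h5 : ∀ T x : ℝ, x = T → (x : AddCircle T) = ((0:ℝ) : AddCircle T) := by
        intro T x hx
        rw [hx, AddCircle.coe_period]
        rfl
      exact h5 _ _ (by ring)
    rw [h2, sub_self, mul_eq_zero] at h1
    rcases h1 with h1 | h1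
    · exfalso
      have hn : (n : ℂ) ≠ 0 := by exact_mod_cast h
      have hpi : (Real.pi : ℂ) ≠ 0 := by exact_mod_cast Real.pi_ne_zero
      have hI : (I : ℂ) ≠ 0 := I_ne_zero
      revert h1
      push_cast
      simp [hn, hI]
    · exact h1

/-- the Hartley kernel -/
noncomputable def cas (n : ℤ) (x : ℝ) : ℝ := (ex n x).re + (ex n x).im

lemma cas_cont (n : ℤ) : Continuous (cas n) :=
  (continuous_re.comp (ex_cont n)).add (continuous_im.comp (ex_cont n))

lemma cas_abs (n : ℤ) (x : ℝ) : |cas n x| ≤ 2 := by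
  have h1 := abs_re_le_norm (ex n x)
  have h2 := abs_im_le_norm (ex n x)
  rw [ex_norm] at h1 h2
  unfold cas
  have := abs_add_le (ex n x).re (ex n x).im
  linarith

lemma cas_mul (m n : ℤ) (x : ℝ) :
    cas m x * cas n x = (ex (m + -n) x).re + (ex (m + n) x).im := by
  rw [ex_add, ex_add, ex_neg]
  simp [cas]
  ring

lemma cas_int (m n : ℤ) :
    ∫ x in (0:ℝ)..(81/100), cas m x * cas n x = if m = n then (81/100 : ℝ) else 0 := by
  simp_rw [cas_mul]
  have hre : ∀ k : ℤ, ∫ x in (0:ℝ)..(81/100), (ex k x).re = (∫ x in (0:ℝ)..(81/100), ex k x).re :=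
    fun k => (reCLM.intervalIntegral_comp_comm ((ex_cont k).intervalIntegrable _ _))
  have him : ∀ k : ℤ, ∫ x in (0:ℝ)..(81/100), (ex k x).im = (∫ x in (0:ℝ)..(81/100), ex k x).im :=
    fun k => (imCLM.intervalIntegral_comp_comm ((ex_cont k).intervalIntegrable _ _))
  have hc1 : ∀ k : ℤ, Continuous (fun x => (ex k x).re) := fun k => continuous_re.comp (ex_cont k)
  have hc2 : ∀ k : ℤ, Continuous (fun x => (ex k x).im) := fun k => continuous_im.comp (ex_cont k)
  rw [intervalIntegral.integral_add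
    ((hc1 _).intervalIntegrable _ _)
    ((hc2 _).intervalIntegrable _ _), hre, him, ex_int, ex_int]
  by_cases h : m = n
  · subst h
    by_cases h2 : m + m = 0
    · simp [h2]
    · simp [h2]
  · have h3 : m + -n ≠ 0 := by omega
    by_cases h2 : m + n = 0
    · simp [h, h2, h3]
    · simp [h, h2, h3]

lemma ex_eq (n : ℤ) (x : ℝ) :
    ex n x = (1 + I) / 2 * (cas n x : ℂ) + (1 - I) / 2 * (cas (-n) x : ℂ) := by
  have h := ex_neg n x
  apply Complex.ext
  · simp [cas, h]
    ring
  · simp [cas, h]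
    ring

/-- the functions of the system -/
noncomputable def gf (n : ℤ) : ℝ → ℝ := (Ioc (0:ℝ) (81/100)).indicator (fun x => 10/9 * cas n x)

lemma gf_abs (n : ℤ) (x : ℝ) : |gf n x| ≤ 20/9 := by
  unfold gf
  by_cases hx : x ∈ Ioc (0:ℝ) (81/100)
  · rw [indicator_of_mem hx, abs_mul]
    have := cas_abs n x
    rw [abs_of_pos (by norm_num : (0:ℝ) < 10/9)]
    linarith
  · rw [indicator_of_notMem hx]
    norm_num

lemma gf_meas (n : ℤ) : Measurable (gf n) :=
  ((continuous_const.mul (cas_cont n)).measurable).indicator measurableSet_Ioc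

lemma gf_memLp (n : ℤ) : MemLp (gf n) 2 mu :=
  MemLp.of_bound (gf_meas n).aestronglyMeasurable (20/9)
    (Filter.Eventually.of_forall fun x => gf_abs n x)

noncomputable def gL (n : ℤ) : Lp ℝ 2 mu := (gf_memLp n).toLp _

lemma inner_gL (n : ℤ) (f : Lp ℝ 2 mu) :
    inner ℝ (gL n) f = 10/9 * ∫ x in (0:ℝ)..(81/100), cas n x * f x := by
  rw [L2.inner_def]
  have h1 : ∫ x, inner ℝ ((gL n : ℝ → ℝ) x) (f x) ∂mu
      = ∫ x, (Ioc (0:ℝ) (81/100)).indicator (fun x => 10/9 * (cas n x * f x)) x ∂mu := by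
    apply integral_congr_ae
    filter_upwards [(gf_memLp n).coeFn_toLp] with x hx
    have hx' : (gL n : ℝ → ℝ) x = gf n x := hx
    rw [hx']
    unfold gf
    by_cases h : x ∈ Ioc (0:ℝ) (81/100)
    · simp [indicator_of_mem h]
      ring
    · simp [indicator_of_notMem h]
  rw [h1, integral_indicator measurableSet_Ioc, Measure.restrict_restrict measurableSet_Ioc,
    intervalIntegral.integral_of_le (by norm_num), ← integral_const_mul]
  congr 2
  apply inter_eq_left.2
  intro x hx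
  exact ⟨hx.1.le, hx.2.trans (by norm_num)⟩

lemma sub_ae {p : ℝ → Prop} (h : ∀ᵐ x ∂mu, p x) {a b : ℝ} (ha : 0 ≤ a) (hb : b ≤ 1) :
    ∀ᵐ x ∂(volume.restrict (Ioc a b)), p x := by
  apply ae_restrict_of_ae_restrict_of_subset _ h
  intro x hx
  exact ⟨ha.trans hx.1.le, hx.2.trans hb⟩

lemma gL_orth : Orthonormal ℝ gL := by
  rw [orthonormal_iff_ite]
  intro m n
  rw [inner_gL]
  have h1 : ∫ x in (0:ℝ)..(81/100), cas m x * (gL n : ℝ → ℝ) x
      = ∫ x in (0:ℝ)..(81/100), 10/9 * (cas m x * cas n x) := by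
    rw [intervalIntegral.integral_of_le (by norm_num), intervalIntegral.integral_of_le (by norm_num)]
    apply integral_congr_ae
    filter_upwards [sub_ae (gf_memLp n).coeFn_toLp le_rfl (by norm_num : (81:ℝ)/100 ≤ 1),
      ae_restrict_mem measurableSet_Ioc] with x hx hx2
    have hx' : (gL n : ℝ → ℝ) x = gf n x := hx
    rw [hx']
    unfold gf
    rw [indicator_of_mem hx2]
    ring
  rw [h1, intervalIntegral.integral_const_mul, cas_int]
  split_ifs <;> norm_num

lemma memLp_sub (f : Lp ℝ 2 mu) {a b : ℝ} (ha : 0 ≤ a) (hb : b ≤ 1) :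
    MemLp (f : ℝ → ℝ) 2 (volume.restrict (Ioc a b)) := by
  apply (Lp.memLp f).mono_measure
  apply Measure.restrict_mono _ le_rfl
  intro x hx
  exact ⟨ha.trans hx.1.le, hx.2.trans hb⟩

lemma vanish (f : Lp ℝ 2 mu) (h : ∀ n, inner ℝ (gL n) f = 0) :
    ∫ x in (0:ℝ)..(81/100), (f x) ^ 2 = 0 := by
  have hm := memLp_sub f le_rfl (by norm_num : (81:ℝ)/100 ≤ 1)
  have hmc : MemLp (fun x => ((f x : ℝ) : ℂ)) 2 (volume.restrict (Ioc (0:ℝ) (81/100))) :=
    hm.ofReal
  have hP := hasSum_sq_fourierCoeffOn (by norm_num : (0:ℝ) < 81/100) hmc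
  have hi : IntervalIntegrable (f : ℝ → ℝ) volume 0 (81/100) := by
    rw [intervalIntegrable_iff_integrableOn_Ioc_of_le (by norm_num)]
    exact hm.integrable (by norm_num)
  have h0 : ∀ n, ∫ x in (0:ℝ)..(81/100), cas n x * f x = 0 := by
    intro n
    have := h n
    rw [inner_gL] at this
    linarith
  have h0c : ∀ n, ∫ x in (0:ℝ)..(81/100), ((cas n x * f x : ℝ) : ℂ) = 0 := by
    intro n
    rw [intervalIntegral.integral_ofReal, h0]
    simp
  have hic : ∀ n, IntervalIntegrable (fun x => ((cas n x * f x : ℝ) : ℂ)) volume 0 (81/100) := by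
    intro n
    have := hi.continuousOn_mul (cas_cont n).continuousOn
    exact ⟨this.1.ofReal, this.2.ofReal⟩
  have hc : ∀ n, fourierCoeffOn (by norm_num : (0:ℝ) < 81/100) (fun x => ((f x : ℝ) : ℂ)) n = 0 := by
    intro n
    rw [fourierCoeffOn_eq_integral]
    have : ∀ x : ℝ, fourier (-n) (x : AddCircle ((81:ℝ)/100 - 0)) • ((f x : ℝ) : ℂ)
        = (1 + I) / 2 * ((cas (-n) x * f x : ℝ) : ℂ)
          + (1 - I) / 2 * ((cas (- -n) x * f x : ℝ) : ℂ) := by
      intro x
      have := ex_eq (-n) x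
      unfold ex at this
      rw [smul_eq_mul, this]
      push_cast
      ring
    simp_rw [this]
    rw [intervalIntegral.integral_add ((hic _).const_mul _) ((hic _).const_mul _),
      intervalIntegral.integral_const_mul, intervalIntegral.integral_const_mul, h0c, h0c]
    simp
  simp_rw [hc] at hP
  have h00 : HasSum (fun _ : ℤ => ‖(0:ℂ)‖ ^ 2) (0:ℝ) := by simp
  have h3 := hP.unique h00
  simp only [smul_eq_mul, mul_eq_zero, norm_real, Real.norm_eq_abs, sq_abs] at h3
  rcases h3 with h3 | h3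
  · norm_num at h3
  · exact h3

lemma small (f : Lp ℝ 2 mu) (h : ∀ n, inner ℝ (gL n) f = 0)
    (hb : ∀ᵐ x ∂mu, |f x| ≤ 20/9) : ‖f‖ ≠ 1 := by
  intro h1
  have h2 : inner ℝ f f = (1:ℝ) := by
    rw [real_inner_self_eq_norm_sq, h1]; norm_num
  rw [L2.inner_def] at h2
  have h3 : ∫ x, inner ℝ ((f : ℝ → ℝ) x) (f x) ∂mu = ∫ x in (0:ℝ)..1, (f x) ^ 2 := by
    rw [intervalIntegral.integral_of_le (by norm_num), ← integral_Icc_eq_integral_Ioc]
    congr 1
    ext x
    simp [sq]
  have hsq : ∀ a b : ℝ, 0 ≤ a → a ≤ b → b ≤ 1 →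
      IntervalIntegrable (fun x => (f x) ^ 2) volume a b := by
    intro a b ha hab hb
    rw [intervalIntegrable_iff_integrableOn_Ioc_of_le hab]
    exact (memLp_sub f ha hb).integrable_sq
  rw [h3, ← intervalIntegral.integral_add_adjacent_intervals
    (hsq 0 (81/100) le_rfl (by norm_num) (by norm_num))
    (hsq (81/100) 1 (by norm_num) (by norm_num) le_rfl), vanish f h, zero_add] at h2
  have h4 : ∫ x in ((81:ℝ)/100)..1, (f x) ^ 2 ≤ ∫ x in ((81:ℝ)/100)..1, ((20:ℝ)/9) ^ 2 := by
    apply intervalIntegral.integral_mono_ae_restrict (by norm_num)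
      (hsq (81/100) 1 (by norm_num) (by norm_num) le_rfl) (by simp)
    have : ∀ᵐ x ∂(volume.restrict (Icc ((81:ℝ)/100) 1)), |f x| ≤ 20/9 := by
      apply ae_restrict_of_ae_restrict_of_subset _ hb
      intro x hx
      exact ⟨le_trans (by norm_num) hx.1, hx.2⟩
    filter_upwards [this] with x hx
    exact sq_le_sq' (by linarith [abs_le.1 hx]) (by linarith [abs_le.1 hx])
  rw [h2] at h4
  simp at h4
  norm_num at h4

/-- disjoint intervals inside `(81/100, 1]` -/
def J (k : ℕ) : Set ℝ := Ioc (81/100 + 19/100 / ((k:ℝ) + 2)) (81/100 + 19/100 / ((k:ℝ) + 1))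

lemma J_sub (k : ℕ) : J k ⊆ Ioc (81/100) 1 := by
  intro x hx
  have h1 : (0:ℝ) < 19/100 / ((k:ℝ) + 2) := by positivity
  have h2 : (19:ℝ)/100 / ((k:ℝ) + 1) ≤ 19/100 := by
    apply div_le_self (by norm_num)
    have : (0:ℝ) ≤ k := Nat.cast_nonneg k
    linarith
  exact ⟨by linarith [hx.1], by linarith [hx.2]⟩

lemma J_disj {k l : ℕ} (h : k < l) : J k ∩ J l = ∅ := by
  apply eq_empty_of_forall_notMem
  intro x hx
  have h1 := hx.1.1
  have h2 := hx.2.2
  have h3 : (19:ℝ)/100 / ((l:ℝ) + 1) ≤ 19/100 / ((k:ℝ) + 2) := by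
    apply div_le_div_of_nonneg_left (by norm_num) (by positivity)
    have : (k:ℝ) + 1 ≤ l := by exact_mod_cast h
    linarith
  linarith

noncomputable def hL (k : ℕ) : Lp ℝ 2 mu :=
  indicatorConstLp 2 (s := J k) measurableSet_Ioc (measure_ne_top _ _) (1:ℝ)

lemma inner_hL (k l : ℕ) : inner ℝ (hL k) (hL l) = mu.real (J k ∩ J l) :=
  L2.real_inner_indicatorConstLp_one_indicatorConstLp_one _ _ _ _

lemma hL_ne (k : ℕ) : hL k ≠ 0 := by
  intro h
  have h1 := inner_hL k k
  rw [h, inner_zero_left, inter_self] at h1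
  have h2 : mu (J k) = volume (J k) := by
    rw [Measure.restrict_apply (by exact measurableSet_Ioc)]
    congr 1
    apply inter_eq_left.2
    intro x hx
    have := J_sub k hx
    exact ⟨le_trans (by norm_num) this.1.le, this.2⟩
  rw [Measure.real, h2, J, Real.volume_Ioc, ENNReal.toReal_ofReal'] at h1
  have h3 : (19:ℝ)/100 / ((k:ℝ) + 2) < 19/100 / ((k:ℝ) + 1) := by
    apply div_lt_div_of_pos_left (by norm_num) (by positivity)
    linarith
  have := le_max_left (81/100 + 19/100 / ((k:ℝ) + 1) - (81/100 + 19/100 / ((k:ℝ) + 2))) 0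
  linarith

lemma hL_li : LinearIndependent ℝ hL := by
  apply linearIndependent_of_ne_zero_of_inner_eq_zero hL_ne
  intro k l hkl
  rw [inner_hL]
  rcases lt_or_gt_of_ne hkl with h | h
  · rw [J_disj h]; simp
  · rw [inter_comm, J_disj h]; simp

lemma gL_hL (n : ℤ) (k : ℕ) : inner ℝ (gL n) (hL k) = 0 := by
  rw [inner_gL]
  have : ∫ x in (0:ℝ)..(81/100), cas n x * (hL k : ℝ → ℝ) x = 0 := by
    rw [intervalIntegral.integral_of_le (by norm_num)]
    apply integral_eq_zero_of_ae
    have h1 : ∀ᵐ x ∂mu, (hL k : ℝ → ℝ) x = (J k).indicator (fun _ => (1:ℝ)) x :=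
      indicatorConstLp_coeFn
    filter_upwards [sub_ae h1 le_rfl (by norm_num : (81:ℝ)/100 ≤ 1),
      ae_restrict_mem measurableSet_Ioc] with x hx hx2
    rw [hx, indicator_of_notMem]
    · simp
    · intro h
      have := (J_sub k h).1
      linarith [hx2.2]
  rw [this]; simp

theorem main :
    ¬ (∀ (M : ℝ) (φ : ℕ → Lp ℝ 2 mu),
      Orthonormal ℝ φ →
      (∀ n, ∀ᵐ x ∂mu, |(φ n : ℝ → ℝ) x| ≤ M) →
      ¬ FiniteDimensional ℝ (Submodule.orthogonal (Submodule.span ℝ (Set.range φ))) →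
      ∃ ψ : ℕ → Lp ℝ 2 mu,
        (∀ k, ∀ᵐ x ∂mu, |(ψ k : ℝ → ℝ) x| ≤ M) ∧
        Orthonormal ℝ (Sum.elim φ ψ) ∧
        (Submodule.span ℝ (Set.range (Sum.elim φ ψ))).topologicalClosure = ⊤) := by
  intro H
  let e : ℕ ≃ ℤ := Equiv.intEquivNat.symm
  obtain ⟨ψ, h1, h2, -⟩ := H (20/9) (gL ∘ e) (gL_orth.comp e e.injective) (by
      intro n
      filter_upwards [(gf_memLp (e n)).coeFn_toLp] with x hx
      have hx' : (gL (e n) : ℝ → ℝ) x = gf (e n) x := hx
      simp only [Function.comp]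
      rw [hx']
      exact gf_abs _ _) (by
      intro hfin
      have hmem : ∀ k, hL k ∈ Submodule.orthogonal (Submodule.span ℝ (Set.range (gL ∘ e))) := by
        intro k
        rw [Submodule.mem_orthogonal]
        intro u hu
        induction hu using Submodule.span_induction with
        | mem x hx =>
          obtain ⟨n, rfl⟩ := hx
          exact gL_hL _ _
        | zero => simp
        | add x y _ _ hx hy => rw [inner_add_left, hx, hy]; simp
        | smul a x _ hx => rw [real_inner_smul_left, hx]; simp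
      have hli : LinearIndependent ℝ (fun k => (⟨hL k, hmem k⟩ :
          Submodule.orthogonal (Submodule.span ℝ (Set.range (gL ∘ e))))) :=
        LinearIndependent.of_comp (Submodule.subtype _) hL_li
      exact Module.Finite.not_linearIndependent_of_infinite _ hli)
  apply small (ψ 0) _ (h1 0) (h2.1 (Sum.inr 0))
  intro n
  have := h2.2 (i := Sum.inl (e.symm n)) (j := Sum.inr 0) (by simp)
  simpa using this

end Pool.Agent.H596Z.Ortho
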